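import Pool.Agent.N783.CF.Stm

/-! Project CF (helper783), part UNI: proportional generators, by helper602. -/

set_option autoImplicit false

open Polynomial NumberField
open scoped Classical

namespace Pool.Agent.N602.CF

open Pool.Agent.N783.CF
open Pool.Agent.N783.PF (fF IsGen)

theorem low_eq_zero {g : ℕ} {F L : Type} [Field F] [NumberField F] [Field L] [NumberField L] [Algebra F L]
    {f : (𝓞 F)[X]} {θ : L} (hG : IsGen g f θ) {p : F[X]} (hp : p.natDegree < 2 * g + 1)
    (h : aeval θ p = 0) : p = 0 := by
  rw [aeval_eq_sum_range' hp, ← Fin.sum_univ_eq_sum_range (fun i => p.coeff i • θ ^ i)] at h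
  have hli := Fintype.linearIndependent_iff.1 hG.basis.linearIndependent (fun i => p.coeff i) (by
    rw [← h]
    refine Finset.sum_congr rfl fun i _ => ?_
    rw [hG.basis_apply])
  ext i
  rw [coeff_zero]
  rcases Nat.lt_or_ge i (2 * g + 1) with hi | hi
  · exact hli ⟨i, hi⟩
  · exact coeff_eq_zero_of_natDegree_lt (hp.trans_le hi)

theorem t_UNI : S_UNI := by
  intro g F L _ _ _ _ _ f f' θ θ' a hf hf' hθ
  have hm : (fF f).Monic := hf.mon.map _
  have hm' : (fF f').Monic := hf'.mon.map _
  have e1 : fF (f.scaleRoots a) = (fF f).scaleRoots (a : F) := by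
    unfold fF
    refine map_scaleRoots f a _ ?_
    rw [hf.mon.leadingCoeff, map_one]
    exact one_ne_zero
  have h1 : aeval θ' (fF (f.scaleRoots a)) = 0 := by
    rw [e1, hθ]
    exact scaleRoots_aeval_eq_zero hf.root
  have hms : (fF (f.scaleRoots a)).Monic := by
    rw [e1]
    exact (monic_scaleRoots_iff _).2 hm
  have hd : (fF f').natDegree = 2 * g + 1 := by
    unfold fF
    rw [hf'.mon.natDegree_map, hf'.deg]
  have hds : (fF (f.scaleRoots a)).natDegree = 2 * g + 1 := by
    rw [e1, natDegree_scaleRoots]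
    unfold fF
    rw [hf.mon.natDegree_map, hf.deg]
  have h2 : fF f' - fF (f.scaleRoots a) = 0 := by
    by_contra hne
    refine hne (low_eq_zero hf' ?_ ?_)
    · have h3 := degree_sub_lt_left (p := fF f') (q := fF (f.scaleRoots a)) (by
        rw [degree_eq_natDegree hm'.ne_zero, degree_eq_natDegree hms.ne_zero, hd, hds]) hm'.ne_zero
        (by rw [hm'.leadingCoeff, hms.leadingCoeff])
      rw [← hd]
      exact natDegree_lt_natDegree hne h3
    · rw [map_sub, hf'.root, h1, sub_zero]
  have h3 : fF f' = fF (f.scaleRoots a) := sub_eq_zero.1 h2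
  unfold fF at h3
  exact Polynomial.map_injective _ (FaithfulSMul.algebraMap_injective (𝓞 F) F) h3

end Pool.Agent.N602.CF
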